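import Pool.Agent.Helper5.WD.Stmts

/-!
# Row XF1: Rosenfeld's induction at the good vertices
-/

set_option autoImplicit false

open Finset Pool.Agent.Helper8.UN Pool.Agent.Helper5.FV

namespace Pool.Agent.Helper5.WD

theorem xf1_mf {α : Type} (p : α → Prop) (dp : DecidablePred p) (s : Finset α) (a : α) :
    a ∈ @Finset.filter α p dp s ↔ a ∈ s ∧ p a := Finset.mem_filter

/-- forgetting the colours on `U'` -/
def xf1_r {n : ℕ} (U' : Finset (Fin n)) (f : Fin n → ℕ) : Fin n → ℕ :=
  fun v => if v ∈ U' then 0 else f v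

theorem xf1_cc {n : ℕ} (E : Finset (Finset (Fin n))) (W U' : Finset (Fin n)) (k : ℕ)
    (f : Fin n → ℕ) (hf : f ∈ CC E W k) : xf1_r U' f ∈ CC E (W \ U') k := by
  classical
  unfold CC at hf ⊢
  rw [xf1_mf, Fintype.mem_piFinset] at hf ⊢
  obtain ⟨h1, h2⟩ := hf
  refine ⟨?_, ?_⟩
  · intro v
    have h3 := h1 v
    unfold xf1_r
    by_cases hv : v ∈ U'
    · rw [if_pos hv, if_neg (fun h => (mem_sdiff.1 h).2 hv)]
      exact mem_singleton_self 0
    · rw [if_neg hv]
      by_cases hw : v ∈ W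
      · rw [if_pos (mem_sdiff.2 ⟨hw, hv⟩)]
        rw [if_pos hw] at h3
        exact h3
      · rw [if_neg (fun h => hw (mem_sdiff.1 h).1)]
        rw [if_neg hw] at h3
        exact h3
  · intro e he hsub
    obtain ⟨u, hu, v, hv, huv⟩ := h2 e he (hsub.trans sdiff_subset)
    refine ⟨u, hu, v, hv, ?_⟩
    unfold xf1_r
    rw [if_neg (mem_sdiff.1 (hsub hu)).2, if_neg (mem_sdiff.1 (hsub hv)).2]
    exact huv

theorem xf1_inj {n : ℕ} (U : Finset (Fin n)) (a : Fin n) (f g : Fin n → ℕ)
    (hf : ∀ u ∈ U, f u = f a) (hg : ∀ u ∈ U, g u = g a)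
    (h : xf1_r (U.erase a) f = xf1_r (U.erase a) g) : f = g := by
  have h0 : ∀ v, v ∉ U.erase a → f v = g v := by
    intro v hv
    have h1 := congrFun h v
    unfold xf1_r at h1
    rw [if_neg hv, if_neg hv] at h1
    exact h1
  funext v
  by_cases hv : v ∈ U.erase a
  · rw [hf v (mem_of_mem_erase hv), hg v (mem_of_mem_erase hv)]
    exact h0 a (notMem_erase a U)
  · exact h0 v hv

/-- `f` is constant on `e` minus `y` -/
def xf1_c {n : ℕ} (y : Fin n) (f : Fin n → ℕ) (e : Finset (Fin n)) : Prop :=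
  ∀ u ∈ e, ∀ v ∈ e, u ≠ y → v ≠ y → f u = f v

open scoped Classical in
/-- the number of colourings of `V` which are constant on `e` minus `y` -/
theorem xf1_mono {n : ℕ} (E : Finset (Finset (Fin n))) (V : Finset (Fin n)) (k d : ℕ) (y : Fin n)
    (e : Finset (Fin n)) (he : 2 ≤ e.card) (hye : y ∈ e) (hV : e.erase y ⊆ V)
    (ih : ∀ T ⊆ e.erase y, d ^ T.card * PP E (V \ T) k ≤ PP E V k) :
    d ^ (e.card - 2) * ((CC E V k).filter (fun f => xf1_c y f e)).card ≤ PP E V k := by
  have hc1 : (e.erase y).card = e.card - 1 := card_erase_of_mem hye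
  obtain ⟨a, ha⟩ : (e.erase y).Nonempty := by
    rw [← card_pos, hc1]; omega
  have hc2 : ((e.erase y).erase a).card = e.card - 2 := by
    rw [card_erase_of_mem ha, hc1]; omega
  have h1 := ih ((e.erase y).erase a) (erase_subset _ _)
  rw [hc2] at h1
  refine le_trans (Nat.mul_le_mul_left _ ?_) h1
  have hconst : ∀ f : Fin n → ℕ, xf1_c y f e → ∀ u ∈ e.erase y, f u = f a := by
    intro f hf u hu
    rw [mem_erase] at hu ha
    exact hf u hu.2 a ha.2 hu.1 ha.1
  unfold PP
  refine Finset.card_le_card_of_injOn (xf1_r ((e.erase y).erase a)) ?_ ?_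
  · intro f hf
    rw [mem_coe, xf1_mf] at hf
    exact mem_coe.2 (xf1_cc E V _ k f hf.1)
  · intro f hf g hg hfg
    rw [mem_coe, xf1_mf] at hf hg
    exact xf1_inj (e.erase y) a f g (hconst f hf.2) (hconst g hg.2) hfg

theorem xf1_det {n : ℕ} (E : Finset (Finset (Fin n))) (hT : Two E) (f : Fin n → ℕ) (y : Fin n)
    (i j : ℕ) (e : Finset (Fin n)) (he : e ∈ E)
    (h1 : ∀ u ∈ e, u ≠ y → f u = i) (h2 : ∀ u ∈ e, u ≠ y → f u = j) : i = j := by
  obtain ⟨u, hu, v, hv, huv⟩ := Finset.one_lt_card.1 (hT e he)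
  by_cases huy : u = y
  · have hvy : v ≠ y := fun h => huv (huy.trans h.symm)
    rw [← h1 v hv hvy, ← h2 v hv hvy]
  · rw [← h1 u hu huy, ← h2 u hu huy]

open scoped Classical in
/-- bound for the number of blocked colours -/
theorem xf1_bk {n : ℕ} (E : Finset (Finset (Fin n))) (hT : Two E) (W : Finset (Fin n)) (k : ℕ)
    (f : Fin n → ℕ) (y : Fin n) (r : ℕ) (hr : 4 ≤ r) (EA EB : Finset (Finset (Fin n)))
    (hE : ∀ e ∈ E, e ⊆ W → y ∈ e → e.card < r → e ∈ EA ∨ e ∈ EB) :
    bk E W k f y ≤ EA.card + n / (r - 1) + (EB.filter (fun e => xf1_c y f e)).card := by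
  unfold bk
  -- choose the edges
  have hch : ∀ i, Blk E W f y i → ∃ e ∈ E, e ⊆ W ∧ y ∈ e ∧ ∀ u ∈ e, u ≠ y → f u = i :=
    fun i h => h
  choose! g hg1 hg2 hg3 hg4 using hch
  have hsplit : (Finset.Icc 1 k).filter (fun i => Blk E W f y i) ⊆
      (((Finset.Icc 1 k).filter (fun i => Blk E W f y i ∧ g i ∈ EA)) ∪
        ((Finset.Icc 1 k).filter (fun i => Blk E W f y i ∧ r ≤ (g i).card))) ∪
        ((Finset.Icc 1 k).filter (fun i => Blk E W f y i ∧ g i ∈ EB)) := by
    intro i hi
    rw [xf1_mf] at hi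
    rw [mem_union, mem_union, xf1_mf, xf1_mf, xf1_mf]
    rcases lt_or_ge (g i).card r with h | h
    · rcases hE (g i) (hg1 i hi.2) (hg2 i hi.2) (hg3 i hi.2) h with h | h
      · exact Or.inl (Or.inl ⟨hi.1, hi.2, h⟩)
      · exact Or.inr ⟨hi.1, hi.2, h⟩
    · exact Or.inl (Or.inr ⟨hi.1, hi.2, h⟩)
  have hA : ((Finset.Icc 1 k).filter (fun i => Blk E W f y i ∧ g i ∈ EA)).card ≤ EA.card := by
    refine Finset.card_le_card_of_injOn g ?_ ?_
    · intro i hi
      rw [mem_coe, xf1_mf] at hi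
      exact mem_coe.2 hi.2.2
    · intro i hi j hj hij
      rw [mem_coe, xf1_mf] at hi hj
      refine xf1_det E hT f y i j (g i) (hg1 i hi.2.1) (hg4 i hi.2.1) ?_
      rw [hij]
      exact hg4 j hj.2.1
  have hC : ((Finset.Icc 1 k).filter (fun i => Blk E W f y i ∧ g i ∈ EB)).card ≤
      (EB.filter (fun e => xf1_c y f e)).card := by
    refine Finset.card_le_card_of_injOn g ?_ ?_
    · intro i hi
      rw [mem_coe, xf1_mf] at hi
      rw [mem_coe, xf1_mf]
      refine ⟨hi.2.2, fun u hu v hv huy hvy => ?_⟩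
      rw [hg4 i hi.2.1 u hu huy, hg4 i hi.2.1 v hv hvy]
    · intro i hi j hj hij
      rw [mem_coe, xf1_mf] at hi hj
      refine xf1_det E hT f y i j (g i) (hg1 i hi.2.1) (hg4 i hi.2.1) ?_
      rw [hij]
      exact hg4 j hj.2.1
  have hB : ((Finset.Icc 1 k).filter (fun i => Blk E W f y i ∧ r ≤ (g i).card)).card ≤
      n / (r - 1) := by
    rw [Nat.le_div_iff_mul_le (by omega)]
    have h1 : ∀ i ∈ (Finset.Icc 1 k).filter (fun i => Blk E W f y i ∧ r ≤ (g i).card),
        r - 1 ≤ (Finset.univ.filter (fun v : Fin n => f v = i)).card := by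
      intro i hi
      rw [xf1_mf] at hi
      have h2 : ((g i).erase y).card = (g i).card - 1 := card_erase_of_mem (hg3 i hi.2.1)
      have h3 : (g i).erase y ⊆ Finset.univ.filter (fun v : Fin n => f v = i) := by
        intro u hu
        rw [mem_erase] at hu
        rw [xf1_mf]
        exact ⟨mem_univ _, hg4 i hi.2.1 u hu.2 hu.1⟩
      have h4 := card_le_card h3
      have h5 := hi.2.2
      omega
    have h2 := Finset.sum_le_sum h1
    rw [sum_const, smul_eq_mul] at h2
    refine le_trans h2 ?_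
    have h3 : ∑ i ∈ (Finset.Icc 1 k).filter (fun i => Blk E W f y i ∧ r ≤ (g i).card),
        (Finset.univ.filter (fun v : Fin n => f v = i)).card =
        (((Finset.Icc 1 k).filter (fun i => Blk E W f y i ∧ r ≤ (g i).card)).biUnion
          (fun i => Finset.univ.filter (fun v : Fin n => f v = i))).card := by
      rw [card_biUnion]
      intro i _ j _ hij
      rw [Function.onFun, disjoint_left]
      intro v hv hv2
      rw [xf1_mf] at hv hv2
      exact hij (by rw [← hv.2, hv2.2])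
    rw [h3]
    refine le_trans (card_le_univ _) ?_
    rw [Fintype.card_fin]
  have h3 := card_le_card hsplit
  have h4 := card_union_le
    (((Finset.Icc 1 k).filter (fun i => Blk E W f y i ∧ g i ∈ EA)) ∪
      ((Finset.Icc 1 k).filter (fun i => Blk E W f y i ∧ r ≤ (g i).card)))
    ((Finset.Icc 1 k).filter (fun i => Blk E W f y i ∧ g i ∈ EB))
  have h5 := card_union_le
    ((Finset.Icc 1 k).filter (fun i => Blk E W f y i ∧ g i ∈ EA))
    ((Finset.Icc 1 k).filter (fun i => Blk E W f y i ∧ r ≤ (g i).card))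
  exact h3.trans (h4.trans (add_le_add (h5.trans (add_le_add hA hB)) hC))

/-- from one vertex to a set of vertices -/
theorem xf1_pow {n k d : ℕ} (E : Finset (Finset (Fin n))) (W0 W : Finset (Fin n))
    (h : ∀ V ⊆ W, ∀ y ∈ V, y ∉ W0 → d * PP E (V.erase y) k ≤ PP E V k) :
    ∀ T : Finset (Fin n), T ⊆ W → Disjoint T W0 → d ^ T.card * PP E (W \ T) k ≤ PP E W k := by
  intro T
  induction T using Finset.induction_on with
  | empty => simp
  | insert v U hv ih =>
    intro hTW hT0
    have hUW : U ⊆ W := (subset_insert _ _).trans hTW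
    have hU0 : Disjoint U W0 := Finset.disjoint_of_subset_left (subset_insert _ _) hT0
    have h1 := ih hUW hU0
    have hvW : v ∈ W \ U := mem_sdiff.2 ⟨hTW (mem_insert_self _ _), hv⟩
    have hv0 : v ∉ W0 := fun h => (Finset.disjoint_left.1 hT0) (mem_insert_self _ _) h
    have h2 := h (W \ U) sdiff_subset v hvW hv0
    have h3 : (W \ U).erase v = W \ insert v U := by
      ext w
      simp only [mem_erase, mem_sdiff, mem_insert]
      tauto
    rw [h3] at h2
    rw [card_insert_of_notMem hv, pow_succ]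
    calc d ^ U.card * d * PP E (W \ insert v U) k = d ^ U.card * (d * PP E (W \ insert v U) k) := by
          ring
      _ ≤ d ^ U.card * PP E (W \ U) k := Nat.mul_le_mul_left _ h2
      _ ≤ PP E W k := h1

open scoped Classical in
theorem xf1_step {n k D0 r D : ℕ} (hCNT : Pool.Agent.Helper8.UN.ST_CNT)
    (E EA EB : Finset (Finset (Fin n))) (κ : ℝ) (hT : Two E) (hr : 4 ≤ r)
    (hD : D = D0 + n / (r - 1) + 1) (hκ0 : 0 < κ) (hκ : κ ≤ (k : ℝ) - D)
    (W : Finset (Fin n)) (y : Fin n) (hy : y ∈ W)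
    (hE : ∀ e ∈ E, e ⊆ W → y ∈ e → e.card < r → e ∈ EA ∨ e ∈ EB)
    (hEA : EA.card ≤ D0) (hEB : ∀ e ∈ EB, 2 ≤ e.card ∧ y ∈ e ∧ e ⊆ W)
    (hwt : ∑ e ∈ EB, (1 / κ) ^ (e.card - 2) ≤ 1)
    (ih : ∀ e ∈ EB, ∀ T ⊆ e.erase y, (k - D) ^ T.card * PP E (W.erase y \ T) k ≤
      PP E (W.erase y) k) :
    (k - D) * PP E (W.erase y) k ≤ PP E W k := by
  obtain ⟨c1, -⟩ := hCNT n k E W y hT hy
  have hDk : D ≤ k := by
    have : (D : ℝ) ≤ k := by linarith
    exact_mod_cast this
  have hcast : ((k - D : ℕ) : ℝ) = (k : ℝ) - D := Nat.cast_sub hDk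
  -- the average of the third part
  have hav : ∀ e ∈ EB, (((CC E (W.erase y) k).filter (fun f => xf1_c y f e)).card : ℝ) ≤
      (1 / κ) ^ (e.card - 2) * PP E (W.erase y) k := by
    intro e he
    obtain ⟨h1, h2, h3⟩ := hEB e he
    have h4 := xf1_mono E (W.erase y) k (k - D) y e h1 h2 (erase_subset_erase _ h3) (ih e he)
    have h5 : ((k : ℝ) - D) ^ (e.card - 2) *
        (((CC E (W.erase y) k).filter (fun f => xf1_c y f e)).card : ℝ) ≤
        PP E (W.erase y) k := by
      rw [← hcast]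
      exact_mod_cast h4
    have h6 : κ ^ (e.card - 2) * (((CC E (W.erase y) k).filter (fun f => xf1_c y f e)).card : ℝ) ≤
        PP E (W.erase y) k :=
      le_trans (mul_le_mul_of_nonneg_right (pow_le_pow_left₀ hκ0.le hκ _) (Nat.cast_nonneg _)) h5
    have h7 : 0 < κ ^ (e.card - 2) := pow_pos hκ0 _
    rw [div_pow, one_pow, div_mul_eq_mul_div, one_mul, le_div_iff₀ h7]
    calc _ = κ ^ (e.card - 2) *
          (((CC E (W.erase y) k).filter (fun f => xf1_c y f e)).card : ℝ) := mul_comm _ _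
      _ ≤ _ := h6
  have hsum : ∑ f ∈ CC E (W.erase y) k, ((EB.filter (fun e => xf1_c y f e)).card : ℝ) ≤
      PP E (W.erase y) k := by
    have h1 : ∑ f ∈ CC E (W.erase y) k, ((EB.filter (fun e => xf1_c y f e)).card : ℝ) =
        ∑ e ∈ EB, (((CC E (W.erase y) k).filter (fun f => xf1_c y f e)).card : ℝ) := by
      have h2 : ∀ f, ((EB.filter (fun e => xf1_c y f e)).card : ℝ) =
          ∑ e ∈ EB, if xf1_c y f e then (1 : ℝ) else 0 := by
        intro f
        rw [Finset.card_filter]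
        push_cast
        rfl
      have h3 : ∀ e, (((CC E (W.erase y) k).filter (fun f => xf1_c y f e)).card : ℝ) =
          ∑ f ∈ CC E (W.erase y) k, if xf1_c y f e then (1 : ℝ) else 0 := by
        intro e
        rw [Finset.card_filter]
        push_cast
        rfl
      simp only [h2, h3]
      exact Finset.sum_comm
    rw [h1]
    calc ∑ e ∈ EB, (((CC E (W.erase y) k).filter (fun f => xf1_c y f e)).card : ℝ)
        ≤ ∑ e ∈ EB, (1 / κ) ^ (e.card - 2) * (PP E (W.erase y) k : ℝ) := sum_le_sum hav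
      _ = (∑ e ∈ EB, (1 / κ) ^ (e.card - 2)) * PP E (W.erase y) k := by rw [sum_mul]
      _ ≤ 1 * PP E (W.erase y) k := mul_le_mul_of_nonneg_right hwt (Nat.cast_nonneg _)
      _ = PP E (W.erase y) k := one_mul _
  have hbk : ∀ f, (bk E W k f y : ℝ) ≤ ((D : ℝ) - 1) + (EB.filter (fun e => xf1_c y f e)).card := by
    intro f
    have h1 := xf1_bk E hT W k f y r hr EA EB hE
    have h2 : bk E W k f y + 1 ≤ D + (EB.filter (fun e => xf1_c y f e)).card := by
      rw [hD]
      omega
    have h3 : (bk E W k f y : ℝ) + 1 ≤ D + (EB.filter (fun e => xf1_c y f e)).card := by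
      exact_mod_cast h2
    linarith
  have hPP : ∑ f ∈ CC E (W.erase y) k, (1 : ℝ) = PP E (W.erase y) k := by
    rw [sum_const, nsmul_eq_mul, mul_one]
    rfl
  have hfin : ((k - D : ℕ) : ℝ) * PP E (W.erase y) k ≤ (PP E W k : ℝ) := by
    rw [c1, hcast]
    push_cast
    calc ((k : ℝ) - D) * PP E (W.erase y) k
        ≤ (k : ℝ) * PP E (W.erase y) k - (((D : ℝ) - 1) * PP E (W.erase y) k +
          ∑ f ∈ CC E (W.erase y) k, ((EB.filter (fun e => xf1_c y f e)).card : ℝ)) := by
            linarith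
      _ = ∑ f ∈ CC E (W.erase y) k, ((k : ℝ) - (((D : ℝ) - 1) +
          (EB.filter (fun e => xf1_c y f e)).card)) := by
            rw [sum_sub_distrib, sum_add_distrib, ← hPP, mul_sum, mul_sum]
            simp only [mul_one]
      _ ≤ ∑ f ∈ CC E (W.erase y) k, ((k - bk E W k f y : ℕ) : ℝ) := by
            refine sum_le_sum fun f _ => ?_
            have h1 : (k : ℝ) ≤ ((k - bk E W k f y : ℕ) : ℝ) + bk E W k f y := by
              have h2 : k ≤ (k - bk E W k f y) + bk E W k f y := by omega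
              exact_mod_cast h2
            have h3 := hbk f
            linarith
  exact_mod_cast hfin

theorem st_XF1 (hCNT : Pool.Agent.Helper8.UN.ST_CNT) (hNUM : ST_GNUM) : ST_XF1 := by
  obtain ⟨n0, h0⟩ := hNUM
  refine ⟨n0, ?_⟩
  intro n hn D0 r k E W0 hX hk
  obtain ⟨hr, -, hDX, -, hk4, hq0, hq1, -, -⟩ := h0 n hn D0 r k hX.d0 hX.r0 hk
  have hone : ∀ (m : ℕ) (V : Finset (Fin n)), V.card = m → ∀ y ∈ V, y ∉ W0 →
      (k - DX n D0 r) * PP E (V.erase y) k ≤ PP E V k := by
    intro m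
    induction m using Nat.strong_induction_on with
    | _ m ih =>
      intro V hV y hy hy0
      refine xf1_step (D0 := D0) (r := r) hCNT E
        (E.filter (fun e => y ∈ e ∧ (e.card < 4 ∨ (e.card < r ∧ (e ∩ W0).Nonempty))))
        ((E.filter (fun e => e ⊆ univ \ W0)).filter
          (fun e => (y ∈ e ∧ 3 ≤ e.card ∧ e.card < r) ∧ e ⊆ V))
        ((n : ℝ) / (2 * Real.log n)) hX.two hr rfl hq0 hq1 V y hy ?_ (hX.deg y hy0) ?_ ?_ ?_
      · intro e he heV hye her
        rw [mem_filter, mem_filter, mem_filter]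
        by_cases h1 : e.card < 4
        · exact Or.inl ⟨he, hye, Or.inl h1⟩
        · by_cases h2 : (e ∩ W0).Nonempty
          · exact Or.inl ⟨he, hye, Or.inr ⟨her, h2⟩⟩
          · refine Or.inr ⟨⟨he, ?_⟩, ⟨hye, by omega, her⟩, heV⟩
            intro u hu
            rw [mem_sdiff]
            exact ⟨mem_univ _, fun hu0 => h2 ⟨u, mem_inter.2 ⟨hu, hu0⟩⟩⟩
      · intro e he
        rw [mem_filter, mem_filter] at he
        exact ⟨by omega, he.2.1.1, he.2.2⟩
      · have h1 := hX.wt y hy0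
        unfold ws at h1
        refine le_trans (sum_le_sum_of_subset_of_nonneg ?_ ?_) (le_trans h1 (by norm_num))
        · intro e he
          rw [mem_filter] at he
          rw [mem_filter]
          exact ⟨he.1, he.2.1⟩
        · intro e _ _
          positivity
      · intro e he T hTe
        rw [mem_filter, mem_filter] at he
        refine xf1_pow E W0 (V.erase y) ?_ T
          (hTe.trans (erase_subset_erase _ he.2.2)) ?_
        · intro V' hV' z hz hz0
          have hlt : V'.card < m := by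
            rw [← hV]
            exact lt_of_le_of_lt (card_le_card hV') (card_erase_lt_of_mem hy)
          exact ih V'.card hlt V' rfl z hz hz0
        · rw [Finset.disjoint_left]
          intro u hu hu0
          have h2 := he.1.2 (mem_of_mem_erase (hTe hu))
          exact (mem_sdiff.1 h2).2 hu0
  intro W T hT0 hWT
  have h1 := xf1_pow E W0 (W ∪ T) (fun V _ y hy hy0 => hone V.card V rfl y hy hy0) T
    subset_union_right hT0
  have h2 : (W ∪ T) \ T = W := by
    rw [union_sdiff_right]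
    exact sdiff_eq_self_of_disjoint hWT
  rw [h2] at h1
  exact h1

end Pool.Agent.Helper5.WD
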